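import Pool.Agent.Y872.L.Defs

/-!
Project LT, part U: the case of a frequency far from the rationals.
-/

set_option autoImplicit false

namespace Pool.Agent.Y474.LT

open Finset Filter
open Pool.Agent.TH112.BL (LM Bd)
open Pool.Agent.H807R2.Dav (ee norm_ee ee_add ee_zero ee_pow)
open Pool.Agent.Y872.L
open scoped ComplexConjugate

theorem abs_f {f : ℕ → ℤ} (hf : CM f) (n : ℕ) : |(f n : ℝ)| ≤ 1 := by
  rcases Nat.eq_zero_or_pos n with h | h
  · rw [h, hf.zero]; simp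
  · rcases hf.val n h with h | h <;> rw [h] <;> simp

theorem norm_f {f : ℕ → ℤ} (hf : CM f) (n : ℕ) : ‖(f n : ℂ)‖ ≤ 1 := by
  rw [Complex.norm_intCast]
  exact abs_f hf n

/-! ### complex means -/

/-- the mean of a complex function -/
noncomputable def mc (μ : LM) (g : ℕ → ℂ) : ℂ :=
  ⟨μ.m (fun n => (g n).re), μ.m (fun n => (g n).im)⟩

theorem bd_re {g : ℕ → ℂ} {B : ℝ} (h : ∀ n, ‖g n‖ ≤ B) : Bd (fun n => (g n).re) :=
  ⟨B, fun n => (Complex.abs_re_le_norm _).trans (h n)⟩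

theorem bd_im {g : ℕ → ℂ} {B : ℝ} (h : ∀ n, ‖g n‖ ≤ B) : Bd (fun n => (g n).im) :=
  ⟨B, fun n => (Complex.abs_im_le_norm _).trans (h n)⟩

theorem m_le (μ : LM) {φ : ℕ → ℝ} {B : ℝ} (h : ∀ n, |φ n| ≤ B) : |μ.m φ| ≤ B := by
  have hb : Bd φ := ⟨B, h⟩
  refine (μ.abs_le hb).trans ?_
  have h1 := μ.mono hb.abs (Bd.const B) h
  have h2 := μ.smul B (fun _ => 1) (Bd.const 1)
  simp only [mul_one, μ.one] at h2
  rwa [h2] at h1

theorem norm_mc_le (μ : LM) {g : ℕ → ℂ} {B : ℝ} (h : ∀ n, ‖g n‖ ≤ B) : ‖mc μ g‖ ≤ 2 * B := by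
  refine (Complex.norm_le_abs_re_add_abs_im _).trans ?_
  have h1 := m_le μ (φ := fun n => (g n).re) (fun n => (Complex.abs_re_le_norm _).trans (h n))
  have h2 := m_le μ (φ := fun n => (g n).im) (fun n => (Complex.abs_im_le_norm _).trans (h n))
  simp only [mc]
  linarith

theorem off (μ : LM) (G : ℕ → ℂ) (B D : ℝ) (hB : ∀ n, ‖G n‖ ≤ B) (β : ℂ)
    (hD : ∀ n, ‖G (n + 1) - β * G n‖ ≤ D) : ‖1 - β‖ * |μ.m (fun n => (G n).re)| ≤ 2 * D := by
  have h1 := norm_mc_le μ hD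
  have h2 : mc μ (fun n => G (n + 1) - β * G n) = (1 - β) * mc μ G := by
    have s1 := μ.shift _ (bd_re hB)
    have s2 := μ.shift _ (bd_im hB)
    have b1 := bd_re hB
    have b2 := bd_im hB
    have r1 : μ.m (fun n => (G (n + 1) - β * G n).re) =
        μ.m (fun n => (G n).re) - (β.re * μ.m (fun n => (G n).re) - β.im * μ.m (fun n => (G n).im)) := by
      rw [← μ.smul _ _ b1, ← μ.smul _ _ b2, ← μ.sub (b1.cmul _) (b2.cmul _)]
      conv_rhs => rw [← s1]
      rw [← μ.sub (b1.comp _) (Bd.of_le ((‖β‖) * B) ?_)]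
      · congr 1
      · intro n
        have e : β.re * (G n).re - β.im * (G n).im = (β * G n).re := by rw [Complex.mul_re]
        rw [e]
        refine (Complex.abs_re_le_norm _).trans ?_
        rw [norm_mul]
        exact mul_le_mul_of_nonneg_left (hB n) (norm_nonneg _)
    have r2 : μ.m (fun n => (G (n + 1) - β * G n).im) =
        μ.m (fun n => (G n).im) - (β.re * μ.m (fun n => (G n).im) + β.im * μ.m (fun n => (G n).re)) := by
      rw [← μ.smul _ _ b1, ← μ.smul _ _ b2, ← μ.add _ _ (b2.cmul _) (b1.cmul _)]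
      conv_rhs => rw [← s2]
      rw [← μ.sub (b2.comp _) (Bd.of_le ((‖β‖) * B) ?_)]
      · congr 1
      · intro n
        have e : β.re * (G n).im + β.im * (G n).re = (β * G n).im := by rw [Complex.mul_im]
        rw [e]
        refine (Complex.abs_im_le_norm _).trans ?_
        rw [norm_mul]
        exact mul_le_mul_of_nonneg_left (hB n) (norm_nonneg _)
    apply Complex.ext
    · rw [Complex.mul_re, Complex.sub_re, Complex.sub_im, Complex.one_re, Complex.one_im]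
      show μ.m (fun n => (G (n + 1) - β * G n).re) =
        (1 - β.re) * μ.m (fun n => (G n).re) - (0 - β.im) * μ.m (fun n => (G n).im)
      rw [r1]
      ring
    · rw [Complex.mul_im, Complex.sub_re, Complex.sub_im, Complex.one_re, Complex.one_im]
      show μ.m (fun n => (G (n + 1) - β * G n).im) =
        (1 - β.re) * μ.m (fun n => (G n).im) + (0 - β.im) * μ.m (fun n => (G n).re)
      rw [r2]
      ring
  rw [h2, norm_mul] at h1
  refine le_trans ?_ h1
  exact mul_le_mul_of_nonneg_left (Complex.abs_re_le_norm (mc μ G)) (norm_nonneg _)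

/-! ### the sums -/

/-- the exponential sum over a window -/
noncomputable def SS (f : ℕ → ℤ) (α : ℝ) (W n : ℕ) : ℂ :=
  ∑ j ∈ range W, (f (n + j) : ℂ) * ee ((j : ℝ) * α)

theorem norm_SS {f : ℕ → ℤ} (hf : CM f) (α : ℝ) (W n : ℕ) : ‖SS f α W n‖ ≤ W := by
  unfold SS
  refine (norm_sum_le _ _).trans ?_
  calc ∑ j ∈ range W, ‖(f (n + j) : ℂ) * ee ((j : ℝ) * α)‖ ≤ ∑ j ∈ range W, (1 : ℝ) := by
        apply sum_le_sum
        intro j _
        rw [norm_mul, norm_ee, mul_one]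
        exact norm_f hf _
    _ = W := by simp

/-- the dual sum -/
noncomputable def TT (θ : ℕ → ℂ) (α : ℝ) (W n : ℕ) : ℂ :=
  ∑ j ∈ range W, θ (n - j) * ee ((j : ℝ) * α)

theorem norm_TT {θ : ℕ → ℂ} (hθ : ∀ n, ‖θ n‖ ≤ 1) (α : ℝ) (W n : ℕ) : ‖TT θ α W n‖ ≤ W := by
  unfold TT
  refine (norm_sum_le _ _).trans ?_
  calc ∑ j ∈ range W, ‖θ (n - j) * ee ((j : ℝ) * α)‖ ≤ ∑ j ∈ range W, (1 : ℝ) := by
        apply sum_le_sum
        intro j _
        rw [norm_mul, norm_ee, mul_one]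
        exact hθ _
    _ = W := by simp

theorem TT_succ {θ : ℕ → ℂ} (hθ : ∀ n, ‖θ n‖ ≤ 1) (α : ℝ) (W n : ℕ) :
    ‖TT θ α W (n + 1) - ee α * TT θ α W n‖ ≤ 2 := by
  rcases Nat.eq_zero_or_pos W with h | h
  · subst h
    simp [TT]
  · obtain ⟨V, rfl⟩ : ∃ V, W = V + 1 := ⟨W - 1, by omega⟩
    unfold TT
    rw [sum_range_succ', sum_range_succ]
    have h1 : ∑ k ∈ range V, θ (n + 1 - (k + 1)) * ee (((k + 1 : ℕ) : ℝ) * α) =
        ee α * ∑ k ∈ range V, θ (n - k) * ee ((k : ℝ) * α) := by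
      rw [mul_sum]
      apply sum_congr rfl
      intro k _
      rw [Nat.add_sub_add_right]
      have : ((k + 1 : ℕ) : ℝ) * α = α + (k : ℝ) * α := by push_cast; ring
      rw [this, ee_add]
      ring
    rw [h1]
    have h2 : ee α * ∑ k ∈ range V, θ (n - k) * ee ((k : ℝ) * α) +
        θ (n + 1 - 0) * ee (((0 : ℕ) : ℝ) * α) -
        ee α * (∑ k ∈ range V, θ (n - k) * ee ((k : ℝ) * α) + θ (n - V) * ee ((V : ℝ) * α)) =
        θ (n + 1 - 0) * ee (((0 : ℕ) : ℝ) * α) - ee α * (θ (n - V) * ee ((V : ℝ) * α)) := by ring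
    rw [h2]
    refine (norm_sub_le _ _).trans ?_
    rw [norm_mul, norm_mul, norm_mul, norm_ee, norm_ee, norm_ee]
    have := hθ (n + 1 - 0)
    have := hθ (n - V)
    linarith

theorem TT_add {θ : ℕ → ℂ} (hθ : ∀ n, ‖θ n‖ ≤ 1) (α : ℝ) (W n k : ℕ) :
    ‖TT θ α W (n + k) - ee ((k : ℝ) * α) * TT θ α W n‖ ≤ 2 * k := by
  induction k with
  | zero => simp [ee_zero]
  | succ k ih =>
    have h1 := TT_succ hθ α W (n + k)
    have h2 : ((k + 1 : ℕ) : ℝ) * α = α + (k : ℝ) * α := by push_cast; ring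
    have h3 : TT θ α W (n + (k + 1)) - ee (((k + 1 : ℕ) : ℝ) * α) * TT θ α W n =
        (TT θ α W (n + k + 1) - ee α * TT θ α W (n + k)) +
        ee α * (TT θ α W (n + k) - ee ((k : ℝ) * α) * TT θ α W n) := by
      rw [h2, ee_add, ← Nat.add_assoc]
      ring
    rw [h3]
    refine (norm_add_le _ _).trans ?_
    rw [norm_mul, norm_ee, one_mul]
    push_cast
    linarith

/-- duality -/
theorem dual (μ : LM) {f : ℕ → ℤ} (hf : CM f) (α : ℝ) (W : ℕ) : ∃ θ : ℕ → ℂ, (∀ n, ‖θ n‖ ≤ 1) ∧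
    μ.m (fun n => ‖SS f α W n‖) = μ.m (fun n => (f n : ℝ) * (TT θ α W n).re) := by
  have h0 : ∀ z : ℂ, ∃ w : ℂ, ‖w‖ ≤ 1 ∧ (w * z) = ‖z‖ := by
    intro z
    by_cases hz : z = 0
    · exact ⟨0, by simp, by simp [hz]⟩
    · refine ⟨conj z / ‖z‖, ?_, ?_⟩
      · rw [norm_div, RCLike.norm_conj, Complex.norm_real, norm_norm,
          div_self (norm_ne_zero_iff.2 hz)]
      · have h1 : (‖z‖ : ℂ) ≠ 0 := by exact_mod_cast norm_ne_zero_iff.2 hz
        rw [div_mul_eq_mul_div, mul_comm (conj z) z, Complex.mul_conj, Complex.normSq_eq_norm_sq]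
        push_cast
        field_simp
  choose w hw1 hw2 using h0
  refine ⟨fun n => w (SS f α W n), fun n => hw1 _, ?_⟩
  set θ : ℕ → ℂ := fun n => w (SS f α W n) with hθ
  have hθ1 : ∀ n, ‖θ n‖ ≤ 1 := fun n => hw1 _
  have h1 : ∀ n, ‖SS f α W n‖ = ∑ j ∈ range W, (f (n + j) : ℝ) * (θ n * ee ((j : ℝ) * α)).re := by
    intro n
    have h2 : ((θ n) * SS f α W n).re = ‖SS f α W n‖ := by
      rw [hw2 (SS f α W n)]
      exact Complex.ofReal_re _
    rw [← h2]
    unfold SS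
    rw [mul_sum, Complex.re_sum]
    apply sum_congr rfl
    intro j _
    have : θ n * ((f (n + j) : ℂ) * ee ((j : ℝ) * α)) =
        ((f (n + j) : ℝ) : ℂ) * (θ n * ee ((j : ℝ) * α)) := by
      push_cast
      ring
    rw [this, Complex.re_ofReal_mul]
  have hb : ∀ (j : ℕ), Bd (fun n => (f (n + j) : ℝ) * (θ n * ee ((j : ℝ) * α)).re) := by
    intro j
    refine Bd.of_le 1 fun n => ?_
    rw [abs_mul]
    have h3 : |(θ n * ee ((j : ℝ) * α)).re| ≤ 1 := by
      refine (Complex.abs_re_le_norm _).trans ?_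
      rw [norm_mul, norm_ee, mul_one]
      exact hθ1 _
    exact mul_le_one₀ (abs_f hf _) (abs_nonneg _) h3
  have hb' : ∀ (j : ℕ), Bd (fun n => (f n : ℝ) * (θ (n - j) * ee ((j : ℝ) * α)).re) := by
    intro j
    refine Bd.of_le 1 fun n => ?_
    rw [abs_mul]
    have h3 : |(θ (n - j) * ee ((j : ℝ) * α)).re| ≤ 1 := by
      refine (Complex.abs_re_le_norm _).trans ?_
      rw [norm_mul, norm_ee, mul_one]
      exact hθ1 _
    exact mul_le_one₀ (abs_f hf _) (abs_nonneg _) h3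
  simp only [h1]
  rw [μ.sum _ (fun j _ => hb j)]
  have h4 : (fun n => (f n : ℝ) * (TT θ α W n).re) =
      fun n => ∑ j ∈ range W, (f n : ℝ) * (θ (n - j) * ee ((j : ℝ) * α)).re := by
    funext n
    unfold TT
    rw [Complex.re_sum, mul_sum]
  rw [h4, μ.sum _ (fun j _ => hb' j)]
  apply sum_congr rfl
  intro j _
  have h5 := μ.shiftk j (hb' j)
  simp only [Nat.add_sub_cancel] at h5
  exact h5

end Pool.Agent.Y474.LT
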