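import Pool.Agent.Y474.LT.A

/-!
Project LT, part U: Turan-Kubilius and the estimate for frequencies far from the rationals.
-/

set_option autoImplicit false

namespace Pool.Agent.Y474.LT

open Finset Filter
open Pool.Agent.TH112.BL (LM Bd)
open Pool.Agent.H807R2.Dav (ee norm_ee ee_add ee_zero ee_pow)
open Pool.Agent.Y872.L
open scoped ComplexConjugate

/-- the primes up to `P` -/
def Ps (P : ℕ) : Finset ℕ := (range (P + 1)).filter Nat.Prime

/-- the sum of their inverses -/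
noncomputable def LL (P : ℕ) : ℝ := ∑ p ∈ Ps P, (1 : ℝ) / p

theorem mem_Ps {P p : ℕ} : p ∈ Ps P ↔ p ≤ P ∧ p.Prime := by
  unfold Ps
  rw [mem_filter, mem_range, Nat.lt_succ_iff]

theorem LL_nonneg (P : ℕ) : 0 ≤ LL P := sum_nonneg fun p _ => by positivity

theorem m_dil (μ : LM) {φ : ℕ → ℝ} (hφ : Bd φ) (p : ℕ) (hp : 1 ≤ p) :
    μ.m (fun n => if p ∣ n then φ n else 0) = 1 / p * μ.m (fun n => φ (p * n)) := by
  have h1 := μ.dil p φ hp hφ
  have h2 : (fun n => if p ∣ n then (p : ℝ) * φ n else 0) =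
      fun n => (p : ℝ) * (if p ∣ n then φ n else 0) := by
    funext n
    split_ifs <;> simp
  rw [h2, μ.smul _ _ (hφ.ite _)] at h1
  have h3 : (p : ℝ) ≠ 0 := by exact_mod_cast (by omega : p ≠ 0)
  rw [h1]
  field_simp

theorem m_dvd (μ : LM) (p : ℕ) (hp : 1 ≤ p) :
    μ.m (fun n => if p ∣ n then (1 : ℝ) else 0) = 1 / p := by
  rw [m_dil μ (Bd.const 1) p hp, μ.one, mul_one]

/-- the number of prime factors -/
noncomputable def DD (P n : ℕ) : ℝ := ∑ p ∈ Ps P, if p ∣ n then (1 : ℝ) else 0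

theorem bd_DD (P : ℕ) : Bd (DD P) := Bd.sum _ fun _ _ => (Bd.const 1).ite _

theorem m_DD (μ : LM) (P : ℕ) : μ.m (DD P) = LL P := by
  have h1 := μ.sum (Ps P) (φ := fun p n => if p ∣ n then (1 : ℝ) else 0)
    (fun p _ => (Bd.const 1).ite _)
  show μ.m (fun n => ∑ p ∈ Ps P, if p ∣ n then (1 : ℝ) else 0) = _
  rw [h1]
  apply sum_congr rfl
  intro p hp
  exact m_dvd μ p (mem_Ps.1 hp).2.one_lt.le

theorem Bd_mul {φ ψ : ℕ → ℝ} (h1 : Bd φ) (h2 : Bd ψ) : Bd (fun n => φ n * ψ n) := by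
  obtain ⟨C, hC⟩ := h1
  obtain ⟨D, hD⟩ := h2
  refine ⟨C * D, fun n => ?_⟩
  rw [abs_mul]
  exact mul_le_mul (hC n) (hD n) (abs_nonneg _) ((abs_nonneg _).trans (hC n))

/-- Turan-Kubilius -/
theorem TK (μ : LM) (P : ℕ) : μ.m (fun n => (DD P n - LL P) ^ 2) ≤ LL P := by
  have hb := bd_DD P
  have e1 : (fun n => (DD P n - LL P) ^ 2) =
      fun n => (DD P n * DD P n - (2 * LL P) * DD P n) + LL P ^ 2 := by
    funext n
    ring
  have hb2 : Bd (fun n => DD P n * DD P n) := Bd_mul hb hb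
  have hc : μ.m (fun _ => LL P ^ 2) = LL P ^ 2 := by
    have := μ.smul (LL P ^ 2) (fun _ => 1) (Bd.const 1)
    simpa [μ.one] using this
  have hb3 : Bd (fun n => DD P n * DD P n - (2 * LL P) * DD P n) := by
    have := hb2.add ((hb.cmul (2 * LL P)).cmul (-1))
    refine (funext fun n => ?_ : (fun n => DD P n * DD P n + -1 * (2 * LL P * DD P n)) =
      (fun n => DD P n * DD P n - (2 * LL P) * DD P n)) ▸ this
    ring
  rw [e1, μ.add _ _ hb3 (Bd.const _), μ.sub hb2 (hb.cmul _), μ.smul _ _ hb, m_DD, hc]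
  have h2 : μ.m (fun n => DD P n * DD P n) ≤ LL P + LL P * LL P := by
    have e2 : (fun n => DD P n * DD P n) = fun n => ∑ p ∈ Ps P, ∑ q ∈ Ps P,
        (if p ∣ n then (1 : ℝ) else 0) * (if q ∣ n then (1 : ℝ) else 0) := by
      funext n
      unfold DD
      rw [sum_mul_sum]
    have hbb : ∀ p q : ℕ, Bd (fun n => (if p ∣ n then (1 : ℝ) else 0) * (if q ∣ n then (1 : ℝ) else 0)) :=
      fun p q => Bd_mul ((Bd.const 1).ite _) ((Bd.const 1).ite _)
    rw [e2, μ.sum _ (fun p _ => Bd.sum _ fun q _ => hbb p q)]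
    have h3 : ∀ p ∈ Ps P, μ.m (fun n => ∑ q ∈ Ps P, (if p ∣ n then (1 : ℝ) else 0) *
        (if q ∣ n then (1 : ℝ) else 0)) ≤ 1 / p + 1 / p * LL P := by
      intro p hp
      rw [μ.sum _ (fun q _ => hbb p q)]
      have h4 : ∀ q ∈ Ps P, μ.m (fun n => (if p ∣ n then (1 : ℝ) else 0) *
          (if q ∣ n then (1 : ℝ) else 0)) ≤ (if p = q then (1 : ℝ) / p else 0) + 1 / p * (1 / q) := by
        intro q hq
        have hp' := (mem_Ps.1 hp).2
        have hq' := (mem_Ps.1 hq).2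
        by_cases hpq : p = q
        · subst hpq
          rw [if_pos rfl]
          have e3 : (fun n => (if p ∣ n then (1 : ℝ) else 0) * (if p ∣ n then (1 : ℝ) else 0)) =
              fun n => if p ∣ n then (1 : ℝ) else 0 := by
            funext n
            split_ifs <;> simp
          rw [e3, m_dvd μ p hp'.one_lt.le]
          have : (0 : ℝ) ≤ 1 / p * (1 / p) := by positivity
          linarith
        · rw [if_neg hpq, zero_add]
          have e3 : (fun n => (if p ∣ n then (1 : ℝ) else 0) * (if q ∣ n then (1 : ℝ) else 0)) =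
              fun n => if p * q ∣ n then (1 : ℝ) else 0 := by
            funext n
            have hcop : p.Coprime q := (Nat.coprime_primes hp' hq').2 hpq
            by_cases h5 : p ∣ n
            · by_cases h6 : q ∣ n
              · rw [if_pos h5, if_pos h6, if_pos (hcop.mul_dvd_of_dvd_of_dvd h5 h6), one_mul]
              · rw [if_neg h6, if_neg (fun h => h6 ((Dvd.intro_left _ rfl).trans h)), mul_zero]
            · rw [if_neg h5, if_neg (fun h => h5 ((Dvd.intro _ rfl).trans h)), zero_mul]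
          rw [e3, m_dvd μ (p * q) (Nat.mul_pos hp'.pos hq'.pos)]
          push_cast
          rw [one_div_mul_one_div]
      refine (sum_le_sum h4).trans (le_of_eq ?_)
      rw [sum_add_distrib, sum_ite_eq, if_pos hp, ← mul_sum]
      rfl
    refine (sum_le_sum h3).trans (le_of_eq ?_)
    rw [sum_add_distrib, ← sum_mul]
    rfl
  nlinarith

/-- the mean absolute deviation -/
theorem TK1 (μ : LM) (P : ℕ) {ε : ℝ} (hε : 0 < ε) (hL : 1 ≤ ε ^ 2 * LL P) :
    μ.m (fun n => |DD P n - LL P|) ≤ ε * LL P := by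
  have hL0 : 0 < LL P := by
    by_contra h
    push Not at h
    nlinarith [sq_nonneg ε]
  have hb : Bd (fun n => DD P n - LL P) := by
    have := (bd_DD P).add (Bd.const (-LL P))
    refine (funext fun n => ?_ : (fun n => DD P n + -LL P) = (fun n => DD P n - LL P)) ▸ this
    ring
  have hb2 : Bd (fun n => (DD P n - LL P) ^ 2) := by
    refine (funext fun n => ?_ : (fun n => (DD P n - LL P) * (DD P n - LL P)) =
      (fun n => (DD P n - LL P) ^ 2)) ▸ Bd_mul hb hb
    ring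
  have hb3 := hb2.cmul (1 / (2 * (ε * LL P)))
  have h1 : ∀ n, |DD P n - LL P| ≤ 1 / (2 * (ε * LL P)) * (DD P n - LL P) ^ 2 + ε * LL P / 2 := by
    intro n
    have h2 : 0 < ε * LL P := by positivity
    have h3 : 1 / (2 * (ε * LL P)) * (DD P n - LL P) ^ 2 + ε * LL P / 2 - |DD P n - LL P| =
        1 / (2 * (ε * LL P)) * (|DD P n - LL P| - ε * LL P) ^ 2 := by
      rw [← sq_abs (DD P n - LL P)]
      field_simp
      ring
    have h4 : 0 ≤ 1 / (2 * (ε * LL P)) * (|DD P n - LL P| - ε * LL P) ^ 2 := by positivity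
    linarith
  have h2 := μ.mono hb.abs (hb3.add (Bd.const (ε * LL P / 2))) h1
  rw [μ.add _ _ hb3 (Bd.const _), μ.smul _ _ hb2] at h2
  have hc : μ.m (fun _ => ε * LL P / 2) = ε * LL P / 2 := by
    have := μ.smul (ε * LL P / 2) (fun _ => 1) (Bd.const 1)
    simpa [μ.one] using this
  rw [hc] at h2
  have h3 : 1 / (2 * (ε * LL P)) * μ.m (fun n => (DD P n - LL P) ^ 2) ≤ ε * LL P / 2 := by
    calc 1 / (2 * (ε * LL P)) * μ.m (fun n => (DD P n - LL P) ^ 2)
        ≤ 1 / (2 * (ε * LL P)) * LL P := mul_le_mul_of_nonneg_left (TK μ P) (by positivity)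
      _ = 1 / (2 * ε) := by field_simp
      _ ≤ 1 / (2 * ε) * (ε ^ 2 * LL P) := le_mul_of_one_le_right (by positivity) hL
      _ = ε * LL P / 2 := by field_simp
  linarith

section minor

variable {θ : ℕ → ℂ} (hθ : ∀ n, ‖θ n‖ ≤ 1) (α : ℝ) (W : ℕ)

include hθ in
/-- off-diagonal terms -/
theorem offdiag (μ : LM) {P p q : ℕ} (hp : p ∈ Ps P) (hq : q ∈ Ps P) (hpq : p ≠ q) {η : ℝ}
    (hη : 0 < η) (hmin : ∀ k : ℕ, 1 ≤ k → k ≤ P → η ≤ ‖1 - ee ((k : ℝ) * α)‖) :
    |μ.m (fun n => (TT θ α W (p * n) * conj (TT θ α W (q * n))).re)| ≤ 8 * P * W / η := by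
  have hp' := mem_Ps.1 hp
  have hq' := mem_Ps.1 hq
  set β : ℂ := ee ((p : ℝ) * α) * conj (ee ((q : ℝ) * α)) with hβ
  have hW0 : (0 : ℝ) ≤ W := Nat.cast_nonneg _
  have hpP : (p : ℝ) ≤ P := by exact_mod_cast hp'.1
  have hqP : (q : ℝ) ≤ P := by exact_mod_cast hq'.1
  have h1 := off μ (fun n => TT θ α W (p * n) * conj (TT θ α W (q * n))) (W * W) (4 * P * W)
    (fun n => by
      rw [norm_mul, RCLike.norm_conj]
      exact mul_le_mul (norm_TT hθ _ _ _) (norm_TT hθ _ _ _) (norm_nonneg _) hW0) β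
    (fun n => by
      have e1 : p * (n + 1) = p * n + p := by ring
      have e2 : q * (n + 1) = q * n + q := by ring
      rw [e1, e2]
      have a1 := TT_add hθ α W (p * n) p
      have a2 := TT_add hθ α W (q * n) q
      have e3 : TT θ α W (p * n + p) * conj (TT θ α W (q * n + q)) -
          β * (TT θ α W (p * n) * conj (TT θ α W (q * n))) =
          (TT θ α W (p * n + p) - ee ((p : ℝ) * α) * TT θ α W (p * n)) *
            conj (TT θ α W (q * n + q)) +
          ee ((p : ℝ) * α) * TT θ α W (p * n) *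
            conj (TT θ α W (q * n + q) - ee ((q : ℝ) * α) * TT θ α W (q * n)) := by
        rw [hβ, map_sub, map_mul]
        ring
      rw [e3]
      refine (norm_add_le _ _).trans ?_
      rw [norm_mul, norm_mul, norm_mul, RCLike.norm_conj, RCLike.norm_conj, norm_ee, one_mul]
      have b1 : ‖TT θ α W (p * n + p) - ee ((p : ℝ) * α) * TT θ α W (p * n)‖ *
          ‖TT θ α W (q * n + q)‖ ≤ (2 * p) * W :=
        mul_le_mul a1 (norm_TT hθ _ _ _) (norm_nonneg _) (by positivity)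
      have b2 : ‖TT θ α W (p * n)‖ *
          ‖TT θ α W (q * n + q) - ee ((q : ℝ) * α) * TT θ α W (q * n)‖ ≤ W * (2 * q) :=
        mul_le_mul (norm_TT hθ _ _ _) a2 (norm_nonneg _) hW0
      nlinarith)
  have h2 : η ≤ ‖1 - β‖ := by
    have h3 : ‖1 - β‖ = ‖ee ((q : ℝ) * α) - ee ((p : ℝ) * α)‖ := by
      have h4 : conj (ee ((q : ℝ) * α)) * ee ((q : ℝ) * α) = 1 := by
        rw [mul_comm, Complex.mul_conj, Complex.normSq_eq_norm_sq, norm_ee]
        norm_num
      have h5 : 1 - β = conj (ee ((q : ℝ) * α)) * (ee ((q : ℝ) * α) - ee ((p : ℝ) * α)) := by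
        rw [hβ, mul_sub, h4]
        ring
      rw [h5, norm_mul, RCLike.norm_conj, norm_ee, one_mul]
    rw [h3]
    have key : ∀ a b : ℕ, a < b → b ≤ P → η ≤ ‖ee ((a : ℝ) * α) - ee ((b : ℝ) * α)‖ := by
      intro a b hab hb
      have h6 := hmin (b - a) (by omega) (by omega)
      have h7 : (b : ℝ) * α = (a : ℝ) * α + ((b - a : ℕ) : ℝ) * α := by
        rw [Nat.cast_sub hab.le]
        ring
      have h8 : ee ((a : ℝ) * α) - ee ((b : ℝ) * α) =
          ee ((a : ℝ) * α) * (1 - ee (((b - a : ℕ) : ℝ) * α)) := by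
        rw [h7, ee_add]
        ring
      rw [h8, norm_mul, norm_ee, one_mul]
      exact h6
    rcases lt_or_gt_of_ne hpq with h | h
    · rw [norm_sub_rev]
      exact key p q h hq'.1
    · exact key q p h hp'.1
  rw [le_div_iff₀ hη]
  have h3 : 0 ≤ |μ.m (fun n => (TT θ α W (p * n) * conj (TT θ α W (q * n))).re)| := abs_nonneg _
  nlinarith

/-- the sum over the primes -/
noncomputable def VV (f : ℕ → ℤ) (θ : ℕ → ℂ) (α : ℝ) (W P n : ℕ) : ℂ :=
  ∑ p ∈ Ps P, (((f p : ℝ) / p : ℝ) : ℂ) * TT θ α W (p * n)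

include hθ in
theorem norm_VV {f : ℕ → ℤ} (hf : CM f) (P n : ℕ) : ‖VV f θ α W P n‖ ≤ LL P * W := by
  unfold VV
  refine (norm_sum_le _ _).trans ?_
  unfold LL
  rw [sum_mul]
  apply sum_le_sum
  intro p _
  rw [norm_mul, Complex.norm_real, Real.norm_eq_abs, abs_div, Nat.abs_cast]
  have := abs_f hf p
  have := norm_TT hθ α W (p * n)
  gcongr

include hθ in
/-- the mean square -/
theorem msq (μ : LM) {f : ℕ → ℤ} (hf : CM f) {P : ℕ} {η : ℝ}
    (hη : 0 < η) (hmin : ∀ k : ℕ, 1 ≤ k → k ≤ P → η ≤ ‖1 - ee ((k : ℝ) * α)‖) :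
    μ.m (fun n => ‖VV f θ α W P n‖ ^ 2) ≤ LL P * (W ^ 2 + 8 * P * W / η * LL P) := by
  have hW0 : (0 : ℝ) ≤ W := Nat.cast_nonneg _
  have e1 : (fun n => ‖VV f θ α W P n‖ ^ 2) = fun n => ∑ p ∈ Ps P, ∑ q ∈ Ps P,
      ((f p : ℝ) / p * ((f q : ℝ) / q)) * (TT θ α W (p * n) * conj (TT θ α W (q * n))).re := by
    funext n
    have h1 : ((‖VV f θ α W P n‖ ^ 2 : ℝ) : ℂ) = VV f θ α W P n * conj (VV f θ α W P n) := by
      rw [Complex.mul_conj, Complex.normSq_eq_norm_sq]
    have h2 : ‖VV f θ α W P n‖ ^ 2 = (VV f θ α W P n * conj (VV f θ α W P n)).re := by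
      rw [← h1, Complex.ofReal_re]
    rw [h2]
    unfold VV
    rw [map_sum, sum_mul_sum, Complex.re_sum]
    apply sum_congr rfl
    intro p _
    rw [Complex.re_sum]
    apply sum_congr rfl
    intro q _
    rw [map_mul, Complex.conj_ofReal]
    have : (((f p : ℝ) / p : ℝ) : ℂ) * TT θ α W (p * n) *
        ((((f q : ℝ) / q : ℝ) : ℂ) * conj (TT θ α W (q * n))) =
        (((f p : ℝ) / p * ((f q : ℝ) / q) : ℝ) : ℂ) *
          (TT θ α W (p * n) * conj (TT θ α W (q * n))) := by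
      push_cast
      ring
    rw [this, Complex.re_ofReal_mul]
  have hbd : ∀ p q : ℕ, Bd (fun n => (TT θ α W (p * n) * conj (TT θ α W (q * n))).re) := by
    intro p q
    refine Bd.of_le (W * W) fun n => ?_
    refine (Complex.abs_re_le_norm _).trans ?_
    rw [norm_mul, RCLike.norm_conj]
    exact mul_le_mul (norm_TT hθ _ _ _) (norm_TT hθ _ _ _) (norm_nonneg _) hW0
  rw [e1, μ.sum _ (fun p _ => Bd.sum _ fun q _ => (hbd p q).cmul _)]
  have h3 : ∀ p ∈ Ps P, μ.m (fun n => ∑ q ∈ Ps P, ((f p : ℝ) / p * ((f q : ℝ) / q)) *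
      (TT θ α W (p * n) * conj (TT θ α W (q * n))).re) ≤
      1 / p * (W ^ 2 + 8 * P * W / η * LL P) := by
    intro p hp
    have hp1 : (1 : ℝ) ≤ p := by exact_mod_cast (mem_Ps.1 hp).2.one_lt.le
    rw [μ.sum _ (fun q _ => (hbd p q).cmul _)]
    have h4 : ∀ q ∈ Ps P, μ.m (fun n => ((f p : ℝ) / p * ((f q : ℝ) / q)) *
        (TT θ α W (p * n) * conj (TT θ α W (q * n))).re) ≤
        1 / p * ((if p = q then (W : ℝ) ^ 2 else 0) + 8 * P * W / η * (1 / q)) := by
      intro q hq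
      have hq1 : (1 : ℝ) ≤ q := by exact_mod_cast (mem_Ps.1 hq).2.one_lt.le
      rw [μ.smul _ _ (hbd p q)]
      refine (le_abs_self _).trans ?_
      rw [abs_mul, abs_mul, abs_div, abs_div, Nat.abs_cast, Nat.abs_cast]
      have hfp := abs_f hf p
      have hfq := abs_f hf q
      have g1 : |(f p : ℝ)| / p * (|(f q : ℝ)| / q) ≤ 1 / p * (1 / q) := by gcongr
      refine (mul_le_mul_of_nonneg_right g1 (abs_nonneg _)).trans ?_
      rw [mul_assoc]
      apply mul_le_mul_of_nonneg_left _ (by positivity)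
      by_cases hpq : p = q
      · rw [if_pos hpq]
        have g2 : |μ.m (fun n => (TT θ α W (p * n) * conj (TT θ α W (q * n))).re)| ≤ W * W := by
          apply m_le
          intro n
          refine (Complex.abs_re_le_norm _).trans ?_
          rw [norm_mul, RCLike.norm_conj]
          exact mul_le_mul (norm_TT hθ _ _ _) (norm_TT hθ _ _ _) (norm_nonneg _) hW0
        have g3 : 1 / (q : ℝ) ≤ 1 := by
          rw [div_le_one (by linarith)]
          exact hq1
        have g4 : (0 : ℝ) ≤ 8 * P * W / η * (1 / q) := by positivity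
        calc 1 / (q : ℝ) * |μ.m (fun n => (TT θ α W (p * n) * conj (TT θ α W (q * n))).re)|
            ≤ 1 * (W * W) := mul_le_mul g3 g2 (abs_nonneg _) zero_le_one
          _ = (W : ℝ) ^ 2 := by ring
          _ ≤ _ := by linarith
      · rw [if_neg hpq, zero_add, mul_comm]
        exact mul_le_mul_of_nonneg_right (offdiag hθ α W μ hp hq hpq hη hmin) (by positivity)
    refine (sum_le_sum h4).trans ?_
    rw [← mul_sum, sum_add_distrib, sum_ite_eq, if_pos hp, ← mul_sum]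
    exact le_rfl
  refine (sum_le_sum h3).trans ?_
  rw [← sum_mul]
  exact le_rfl

include hθ in
/-- the mean modulus -/
theorem mVV (μ : LM) {f : ℕ → ℤ} (hf : CM f) {P : ℕ} {η ε : ℝ} (hε : 0 < ε)
    (hL : 1 ≤ ε ^ 2 * LL P) (hW : 1 ≤ W)
    (hη : 0 < η) (hmin : ∀ k : ℕ, 1 ≤ k → k ≤ P → η ≤ ‖1 - ee ((k : ℝ) * α)‖) :
    μ.m (fun n => ‖VV f θ α W P n‖) ≤ LL P * (ε * W + 4 * P / (η * ε)) := by
  have hL0 : 0 < LL P := by
    by_contra h
    push Not at h
    nlinarith [sq_nonneg ε]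
  have hW1 : (1 : ℝ) ≤ W := by exact_mod_cast hW
  have hlam : 0 < ε * W * LL P := by positivity
  have hb : Bd (fun n => ‖VV f θ α W P n‖) := Bd.of_le (LL P * W) fun n => by
    rw [abs_norm]
    exact norm_VV hθ α W hf P n
  have hb2 : Bd (fun n => ‖VV f θ α W P n‖ ^ 2) := by
    refine (funext fun n => ?_ : (fun n => ‖VV f θ α W P n‖ * ‖VV f θ α W P n‖) =
      (fun n => ‖VV f θ α W P n‖ ^ 2)) ▸ Bd_mul hb hb
    ring
  have hb3 := hb2.cmul (1 / (2 * (ε * W * LL P)))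
  have h1 : ∀ n, ‖VV f θ α W P n‖ ≤
      1 / (2 * (ε * W * LL P)) * ‖VV f θ α W P n‖ ^ 2 + ε * W * LL P / 2 := by
    intro n
    have h3 : 1 / (2 * (ε * W * LL P)) * ‖VV f θ α W P n‖ ^ 2 + ε * W * LL P / 2 -
        ‖VV f θ α W P n‖ =
        1 / (2 * (ε * W * LL P)) * (‖VV f θ α W P n‖ - ε * W * LL P) ^ 2 := by
      field_simp
      ring
    have h4 : 0 ≤ 1 / (2 * (ε * W * LL P)) * (‖VV f θ α W P n‖ - ε * W * LL P) ^ 2 := by
      positivity
    linarith
  have h2 := μ.mono hb (hb3.add (Bd.const (ε * W * LL P / 2))) h1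
  rw [μ.add _ _ hb3 (Bd.const _), μ.smul _ _ hb2] at h2
  have hc : μ.m (fun _ => ε * W * LL P / 2) = ε * W * LL P / 2 := by
    have := μ.smul (ε * W * LL P / 2) (fun _ => 1) (Bd.const 1)
    simpa [μ.one] using this
  rw [hc] at h2
  have h3 : 1 / (2 * (ε * W * LL P)) * μ.m (fun n => ‖VV f θ α W P n‖ ^ 2) ≤
      ε * W * LL P / 2 + 4 * P / (η * ε) * LL P := by
    calc 1 / (2 * (ε * W * LL P)) * μ.m (fun n => ‖VV f θ α W P n‖ ^ 2)
        ≤ 1 / (2 * (ε * W * LL P)) * (LL P * (W ^ 2 + 8 * P * W / η * LL P)) :=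
          mul_le_mul_of_nonneg_left (msq hθ α W μ hf hη hmin) (by positivity)
      _ = W / (2 * ε) + 4 * P / (η * ε) * LL P := by field_simp; ring
      _ ≤ W / (2 * ε) * (ε ^ 2 * LL P) + 4 * P / (η * ε) * LL P := by
          have : (W : ℝ) / (2 * ε) ≤ W / (2 * ε) * (ε ^ 2 * LL P) :=
            le_mul_of_one_le_right (by positivity) hL
          linarith
      _ = _ := by field_simp
  nlinarith

end minor

/-- the estimate for frequencies far from the rationals -/
theorem minor (μ : LM) {f : ℕ → ℤ} (hf : CM f) {P : ℕ} {η ε : ℝ} (hε : 0 < ε)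
    (hL : 1 ≤ ε ^ 2 * LL P) (hη : 0 < η) (W : ℕ) (hW : 1 ≤ W) (hW2 : 4 * P / (η * ε) ≤ ε * W)
    (α : ℝ) (hmin : ∀ k : ℕ, 1 ≤ k → k ≤ P → η ≤ ‖1 - ee ((k : ℝ) * α)‖) :
    μ.m (fun n => ‖SS f α W n‖) ≤ 3 * ε * W := by
  have hL0 : 0 < LL P := by
    by_contra h
    push Not at h
    nlinarith [sq_nonneg ε]
  have hW0 : (0 : ℝ) ≤ W := Nat.cast_nonneg _
  obtain ⟨θ, hθ, hdual⟩ := dual μ hf α W
  rw [hdual]
  set F : ℕ → ℝ := fun n => (f n : ℝ) * (TT θ α W n).re with hF
  have hFb : ∀ n, |F n| ≤ W := by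
    intro n
    simp only [hF]
    rw [abs_mul]
    calc |(f n : ℝ)| * |(TT θ α W n).re| ≤ 1 * W :=
          mul_le_mul (abs_f hf n) ((Complex.abs_re_le_norm _).trans (norm_TT hθ _ _ _))
            (abs_nonneg _) zero_le_one
      _ = W := one_mul _
  have hFB : Bd F := ⟨W, hFb⟩
  have hDF : Bd (fun n => DD P n * F n) := Bd_mul (bd_DD P) hFB
  have hb : Bd (fun n => DD P n - LL P) := by
    have := (bd_DD P).add (Bd.const (-LL P))
    refine (funext fun n => ?_ : (fun n => DD P n + -LL P) = (fun n => DD P n - LL P)) ▸ this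
    ring
  have hLF : Bd (fun n => (DD P n - LL P) * F n) := Bd_mul hb hFB
  have h1 : LL P * μ.m F = μ.m (fun n => DD P n * F n) - μ.m (fun n => (DD P n - LL P) * F n) := by
    rw [← μ.smul _ _ hFB, ← μ.sub hDF hLF]
    congr 1
    funext n
    ring
  have h2 : |μ.m (fun n => (DD P n - LL P) * F n)| ≤ W * (ε * LL P) := by
    refine (μ.abs_le hLF).trans ?_
    have h3 := μ.mono hLF.abs (hb.abs.cmul (W : ℝ)) (fun n => by
      rw [abs_mul, mul_comm]
      exact mul_le_mul_of_nonneg_right (hFb n) (abs_nonneg _))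
    rw [μ.smul _ _ hb.abs] at h3
    exact h3.trans (mul_le_mul_of_nonneg_left (TK1 μ P hε hL) hW0)
  have h4 : μ.m (fun n => DD P n * F n) ≤ μ.m (fun n => ‖VV f θ α W P n‖) := by
    have e1 : (fun n => DD P n * F n) = fun n => ∑ p ∈ Ps P, if p ∣ n then F n else 0 := by
      funext n
      unfold DD
      rw [sum_mul]
      apply sum_congr rfl
      intro p _
      split_ifs <;> simp
    rw [e1, μ.sum _ (fun p _ => hFB.ite _)]
    have e2 : ∀ p ∈ Ps P, μ.m (fun n => if p ∣ n then F n else 0) =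
        μ.m (fun n => (f n : ℝ) * ((f p : ℝ) / p * (TT θ α W (p * n)).re)) := by
      intro p hp
      rw [m_dil μ hFB p (mem_Ps.1 hp).2.one_lt.le, ← μ.smul _ _ (hFB.comp _)]
      congr 1
      funext n
      simp only [hF]
      rw [hf.mul]
      push_cast
      ring
    have hb5 : ∀ p ∈ Ps P, Bd (fun n => (f n : ℝ) * ((f p : ℝ) / p * (TT θ α W (p * n)).re)) := by
      intro p _
      exact Bd_mul ⟨1, abs_f hf⟩ (Bd.cmul _ (Bd.of_le W fun n =>
        (Complex.abs_re_le_norm _).trans (norm_TT hθ _ _ _)))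
    rw [sum_congr rfl e2, ← μ.sum _ hb5]
    apply μ.mono (Bd.sum _ hb5) (Bd.of_le (LL P * W) fun n => by
      rw [abs_norm]
      exact norm_VV hθ α W hf P n)
    intro n
    have e3 : ∑ p ∈ Ps P, (f n : ℝ) * ((f p : ℝ) / p * (TT θ α W (p * n)).re) =
        (f n : ℝ) * (VV f θ α W P n).re := by
      unfold VV
      rw [Complex.re_sum, mul_sum]
      apply sum_congr rfl
      intro p _
      rw [Complex.re_ofReal_mul]
    rw [e3]
    refine (le_abs_self _).trans ?_
    rw [abs_mul]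
    calc |(f n : ℝ)| * |(VV f θ α W P n).re| ≤ 1 * ‖VV f θ α W P n‖ :=
          mul_le_mul (abs_f hf n) (Complex.abs_re_le_norm _) (abs_nonneg _) zero_le_one
      _ = _ := one_mul _
  have h5 := mVV hθ α W μ hf hε hL hW hη hmin
  have h6 := abs_le.1 h2
  have h7 : LL P * μ.m F ≤ LL P * (3 * ε * W) := by
    rw [h1]
    nlinarith
  exact le_of_mul_le_mul_left h7 hL0

end Pool.Agent.Y474.LT
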