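import Pool.Agent.Y474.LT.B

/-!
Project LT, part U: uniform short exponential sums from sums over residue classes.
-/

set_option autoImplicit false

namespace Pool.Agent.Y474.LT

open Finset Filter
open Pool.Agent.TH112.BL (LM Bd)
open Pool.Agent.H807R2.Dav (ee norm_ee ee_add ee_zero ee_pow)
open Pool.Agent.Y872.L

theorem SS_add (f : ℕ → ℤ) (α : ℝ) (A B n : ℕ) :
    SS f α (A + B) n = SS f α A n + ee ((A : ℝ) * α) * SS f α B (n + A) := by
  unfold SS
  rw [sum_range_add, mul_sum]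
  congr 1
  apply sum_congr rfl
  intro j _
  have : ((A + j : ℕ) : ℝ) * α = (A : ℝ) * α + (j : ℝ) * α := by push_cast; ring
  rw [this, ee_add, ← Nat.add_assoc]
  ring

theorem SS_mul (f : ℕ → ℤ) (α : ℝ) (M V n : ℕ) :
    ‖SS f α (M * V) n‖ ≤ ∑ i ∈ range M, ‖SS f α V (n + i * V)‖ := by
  induction M with
  | zero => simp [SS]
  | succ M ih =>
    rw [sum_range_succ, Nat.succ_mul, SS_add]
    refine (norm_add_le _ _).trans ?_
    rw [norm_mul, norm_ee, one_mul]
    exact add_le_add ih le_rfl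

theorem bd_SS {f : ℕ → ℤ} (hf : CM f) (α : ℝ) (W : ℕ) : Bd (fun n => ‖SS f α W n‖) :=
  Bd.of_le W fun n => by
    rw [abs_norm]
    exact norm_SS hf α W n

theorem m_const (μ : LM) (c : ℝ) : μ.m (fun _ => c) = c := by
  have := μ.smul c (fun _ => 1) (Bd.const 1)
  simpa [μ.one] using this

theorem cut (μ : LM) {f : ℕ → ℤ} (hf : CM f) (α : ℝ) (W V : ℕ) (hV : 0 < V) :
    μ.m (fun n => ‖SS f α W n‖) ≤ (W / V : ℕ) * μ.m (fun n => ‖SS f α V n‖) + V := by
  have h1 : ∀ n, ‖SS f α W n‖ ≤ (∑ i ∈ range (W / V), ‖SS f α V (n + i * V)‖) + V := by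
    intro n
    have h2 : W = W / V * V + W % V := by
      have := Nat.div_add_mod W V
      rw [Nat.mul_comm] at this
      exact this.symm
    have h3 : ‖SS f α W n‖ ≤ ‖SS f α (W / V * V) n‖ + V := by
      have h4 : SS f α W n = SS f α (W / V * V) n +
          ee (((W / V * V : ℕ) : ℝ) * α) * SS f α (W % V) (n + W / V * V) := by
        rw [← SS_add, ← h2]
      rw [h4]
      refine (norm_add_le _ _).trans ?_
      rw [norm_mul, norm_ee, one_mul]
      have h5 := norm_SS hf α (W % V) (n + W / V * V)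
      have h6 : ((W % V : ℕ) : ℝ) ≤ V := by exact_mod_cast (Nat.mod_lt _ hV).le
      linarith
    exact h3.trans (add_le_add (SS_mul f α _ V n) le_rfl)
  have hb := bd_SS hf α V
  have hb1 : ∀ i ∈ range (W / V), Bd (fun n => ‖SS f α V (n + i * V)‖) :=
    fun i _ => hb.comp fun n => n + i * V
  refine (μ.mono (bd_SS hf α W) ((Bd.sum _ hb1).add (Bd.const _)) h1).trans ?_
  rw [μ.add _ _ (Bd.sum _ hb1) (Bd.const _), μ.sum _ hb1, m_const]
  have h7 : ∀ i ∈ range (W / V), μ.m (fun n => ‖SS f α V (n + i * V)‖) =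
      μ.m (fun n => ‖SS f α V n‖) := fun i _ => μ.shiftk (i * V) hb
  rw [sum_congr rfl h7, sum_const, card_range, nsmul_eq_mul]

theorem pow_sub (z : ℂ) (hz : ‖z‖ = 1) (i : ℕ) : ‖z ^ i - 1‖ ≤ i * ‖1 - z‖ := by
  induction i with
  | zero => simp
  | succ i ih =>
    have h1 : z ^ (i + 1) - 1 = z * (z ^ i - 1) + (z - 1) := by ring
    rw [h1]
    refine (norm_add_le _ _).trans ?_
    rw [norm_mul, hz, one_mul, norm_sub_rev z 1]
    push_cast
    linarith

/-- a block -/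
theorem block {f : ℕ → ℤ} (hf : CM f) (α : ℝ) (k V N : ℕ) (hk : 1 ≤ k) {η : ℝ}
    (hη : ‖1 - ee ((k : ℝ) * α)‖ ≤ η) :
    ‖SS f α V N‖ ≤ k * ∑ c ∈ range k, |∑ j ∈ range V, (rs f k c (N + j) : ℝ)| + V * V * η := by
  have hη0 : 0 ≤ η := (norm_nonneg _).trans hη
  have h1 : SS f α V N = ∑ r ∈ range V, (f (N + r) : ℂ) * ee (((r % k : ℕ) : ℝ) * α) +
      ∑ r ∈ range V, (f (N + r) : ℂ) * (ee ((r : ℝ) * α) - ee (((r % k : ℕ) : ℝ) * α)) := by
    unfold SS
    rw [← sum_add_distrib]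
    apply sum_congr rfl
    intro r _
    ring
  have h2 : ‖∑ r ∈ range V, (f (N + r) : ℂ) * (ee ((r : ℝ) * α) - ee (((r % k : ℕ) : ℝ) * α))‖ ≤
      V * V * η := by
    refine (norm_sum_le _ _).trans ?_
    calc ∑ r ∈ range V, ‖(f (N + r) : ℂ) * (ee ((r : ℝ) * α) - ee (((r % k : ℕ) : ℝ) * α))‖
        ≤ ∑ r ∈ range V, (V : ℝ) * η := by
          apply sum_le_sum
          intro r hr
          have hrV : r ≤ V := (mem_range.1 hr).le
          have h3 : ee ((r : ℝ) * α) = ee (((r % k : ℕ) : ℝ) * α) * ee ((k : ℝ) * α) ^ (r / k) := by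
            rw [← ee_pow, ← ee_add]
            congr 1
            have h4 : (r : ℝ) = ((r % k : ℕ) : ℝ) + (k : ℝ) * ((r / k : ℕ) : ℝ) := by
              exact_mod_cast (Nat.mod_add_div r k).symm
            conv_lhs => rw [h4]
            ring
          have h5 : ee ((r : ℝ) * α) - ee (((r % k : ℕ) : ℝ) * α) =
              ee (((r % k : ℕ) : ℝ) * α) * (ee ((k : ℝ) * α) ^ (r / k) - 1) := by
            rw [h3]
            ring
          rw [h5, norm_mul, norm_mul, norm_ee, one_mul]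
          have h6 := pow_sub (ee ((k : ℝ) * α)) (norm_ee _) (r / k)
          have h7 : ((r / k : ℕ) : ℝ) ≤ V := by
            exact_mod_cast (Nat.div_le_self r k).trans hrV
          calc ‖(f (N + r) : ℂ)‖ * ‖ee ((k : ℝ) * α) ^ (r / k) - 1‖
              ≤ 1 * (((r / k : ℕ) : ℝ) * ‖1 - ee ((k : ℝ) * α)‖) :=
                mul_le_mul (norm_f hf _) h6 (norm_nonneg _) zero_le_one
            _ ≤ V * η := by
                rw [one_mul]
                exact mul_le_mul h7 hη (norm_nonneg _) (Nat.cast_nonneg _)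
      _ = V * V * η := by
          rw [sum_const, card_range, nsmul_eq_mul]
          ring
  have h8 : ‖∑ r ∈ range V, (f (N + r) : ℂ) * ee (((r % k : ℕ) : ℝ) * α)‖ ≤
      k * ∑ c ∈ range k, |∑ j ∈ range V, (rs f k c (N + j) : ℝ)| := by
    have hmaps : ∀ r ∈ range V, r % k ∈ range k := fun r _ => mem_range.2 (Nat.mod_lt _ hk)
    rw [← sum_fiberwise_of_maps_to hmaps]
    refine (norm_sum_le _ _).trans ?_
    have h9 : ∀ c ∈ range k, ‖∑ r ∈ range V with r % k = c,
        (f (N + r) : ℂ) * ee (((r % k : ℕ) : ℝ) * α)‖ ≤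
        ∑ c ∈ range k, |∑ j ∈ range V, (rs f k c (N + j) : ℝ)| := by
      intro c hc
      have hck := mem_range.1 hc
      have h10 : ∑ r ∈ range V with r % k = c, (f (N + r) : ℂ) * ee (((r % k : ℕ) : ℝ) * α) =
          ((∑ j ∈ range V, (rs f k ((N + c) % k) (N + j) : ℝ) : ℝ) : ℂ) * ee ((c : ℝ) * α) := by
        rw [Complex.ofReal_sum, sum_mul, sum_filter]
        apply sum_congr rfl
        intro r _
        have h11 : (N + r) % k = (N + c) % k ↔ r % k = c := by
          constructor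
          · intro h
            have h12 : N + r ≡ N + c [MOD k] := h
            have h13 : r ≡ c [MOD k] := Nat.ModEq.add_left_cancel' N h12
            rw [h13, Nat.mod_eq_of_lt hck]
          · intro h
            have h13 : r ≡ c [MOD k] := by
              show r % k = c % k
              rw [h, Nat.mod_eq_of_lt hck]
            exact Nat.ModEq.add_left N h13
        unfold rs
        by_cases hr : r % k = c
        · rw [if_pos hr, if_pos (h11.2 hr), hr]
          push_cast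
          ring
        · rw [if_neg hr, if_neg (fun h => hr (h11.1 h))]
          simp
      rw [h10, norm_mul, norm_ee, mul_one, Complex.norm_real, Real.norm_eq_abs]
      exact single_le_sum (f := fun c => |∑ j ∈ range V, (rs f k c (N + j) : ℝ)|)
        (fun _ _ => abs_nonneg _) (mem_range.2 (Nat.mod_lt _ hk))
    refine (sum_le_sum h9).trans ?_
    rw [sum_const, card_range, nsmul_eq_mul]
  rw [h1]
  exact (norm_add_le _ _).trans (add_le_add h8 h2)

theorem rs_le {f : ℕ → ℤ} (hf : CM f) (k c n : ℕ) : |(rs f k c n : ℝ)| ≤ 1 := by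
  unfold rs
  split_ifs
  · exact abs_f hf n
  · simp

theorem bd_rs {f : ℕ → ℤ} (hf : CM f) (k c V : ℕ) :
    Bd (fun n => |∑ j ∈ range V, (rs f k c (n + j) : ℝ)|) := by
  refine Bd.abs (Bd.sum _ fun j _ => Bd.of_le 1 fun n => rs_le hf k c (n + j))

/-- the estimate for frequencies near the rationals -/
theorem major (μ : LM) {f : ℕ → ℤ} (hf : CM f) (α : ℝ) (k V W : ℕ) (hk : 1 ≤ k) (hV : 0 < V)
    {η δ : ℝ} (hη : ‖1 - ee ((k : ℝ) * α)‖ ≤ η) (hδ : 0 ≤ δ)
    (hR : ∀ c < k, μ.m (fun n => |∑ j ∈ range V, (rs f k c (n + j) : ℝ)|) ≤ δ * V) :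
    μ.m (fun n => ‖SS f α W n‖) ≤ W * (k ^ 2 * δ + V * η) + V := by
  have hη0 : 0 ≤ η := (norm_nonneg _).trans hη
  have h1 : μ.m (fun n => ‖SS f α V n‖) ≤ k * (k * (δ * V)) + V * V * η := by
    have hb : ∀ c ∈ range k, Bd (fun n => |∑ j ∈ range V, (rs f k c (n + j) : ℝ)|) :=
      fun c _ => bd_rs hf k c V
    refine (μ.mono (bd_SS hf α V) (((Bd.sum _ hb).cmul (k : ℝ)).add (Bd.const (V * V * η)))
      (fun n => block hf α k V n hk hη)).trans ?_
    rw [μ.add _ _ ((Bd.sum _ hb).cmul (k : ℝ)) (Bd.const _), μ.smul _ _ (Bd.sum _ hb), m_const,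
      μ.sum _ hb]
    have h2 : ∑ c ∈ range k, μ.m (fun n => |∑ j ∈ range V, (rs f k c (n + j) : ℝ)|) ≤
        k * (δ * V) := by
      refine (sum_le_sum fun c hc => hR c (mem_range.1 hc)).trans ?_
      rw [sum_const, card_range, nsmul_eq_mul]
    have h3 := mul_le_mul_of_nonneg_left h2 (Nat.cast_nonneg (α := ℝ) k)
    linarith
  refine (cut μ hf α W V hV).trans ?_
  have hV' : (0 : ℝ) < V := by exact_mod_cast hV
  have h4 : ((W / V : ℕ) : ℝ) ≤ W / V := Nat.cast_div_le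
  have h5 : 0 ≤ (k : ℝ) * (k * (δ * V)) + V * V * η := by positivity
  calc ((W / V : ℕ) : ℝ) * μ.m (fun n => ‖SS f α V n‖) + V
      ≤ ((W / V : ℕ) : ℝ) * (k * (k * (δ * V)) + V * V * η) + V := by gcongr
    _ ≤ (W / V) * (k * (k * (δ * V)) + V * V * η) + V := by gcongr
    _ = W * (k ^ 2 * δ + V * η) + V := by field_simp

theorem exists_P {ε : ℝ} (hε : 0 < ε) : ∃ P : ℕ, 1 ≤ ε ^ 2 * LL P := by
  have h1 := not_summable_one_div_on_primes
  have h2 : Tendsto (fun n => ∑ i ∈ range n, Set.indicator {p : ℕ | p.Prime}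
      (fun n : ℕ => (1 : ℝ) / n) i) atTop atTop := by
    rw [← not_summable_iff_tendsto_nat_atTop_of_nonneg]
    · exact h1
    · intro n
      exact Set.indicator_nonneg (fun _ _ => by positivity) n
  obtain ⟨n, hn⟩ := (h2.eventually_ge_atTop (1 / ε ^ 2)).exists
  refine ⟨n, ?_⟩
  have h3 : ∑ i ∈ range n, Set.indicator {p : ℕ | p.Prime} (fun n : ℕ => (1 : ℝ) / n) i ≤ LL n := by
    unfold LL Ps
    rw [sum_filter]
    refine (sum_le_sum_of_subset_of_nonneg (range_mono (Nat.le_succ n)) ?_).trans (le_of_eq ?_)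
    · intro i _ _
      exact Set.indicator_nonneg (fun _ _ => by positivity) i
    · apply sum_congr rfl
      intro i _
      rw [Set.indicator_apply]
      rfl
  have h4 := hn.trans h3
  rw [div_le_iff₀ (by positivity)] at h4
  linarith

/-- U -/
theorem uu_of_rr : S_U := by
  intro μ f hf hRR ε hε
  obtain ⟨P, hP⟩ := exists_P (ε := ε / 3) (by positivity)
  have hP1 : 1 ≤ P := by
    by_contra h
    have h0 : P = 0 := by omega
    subst h0
    have : LL 0 = 0 := by
      unfold LL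
      apply sum_eq_zero
      intro p hp
      obtain ⟨h1, h2⟩ := mem_Ps.1 hp
      exact absurd h2.pos (by omega)
    rw [this] at hP
    norm_num at hP
  have hP' : (1 : ℝ) ≤ P := by exact_mod_cast hP1
  have hδ : 0 < ε / (3 * (P : ℝ) ^ 2) := by positivity
  have h0 : ∀ k c : ℕ, ∃ W₀ : ℕ, 0 < k → c < k → ∀ W : ℕ, W₀ ≤ W →
      μ.m (fun n => |∑ j ∈ range W, (rs f k c (n + j) : ℝ)|) ≤ ε / (3 * (P : ℝ) ^ 2) * W := by
    intro k c
    by_cases h : 0 < k ∧ c < k
    · obtain ⟨W₀, hW₀⟩ := hRR k c h.1 h.2 _ hδ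
      exact ⟨W₀, fun _ _ => hW₀⟩
    · exact ⟨0, fun h1 h2 => absurd ⟨h1, h2⟩ h⟩
  choose w hw using h0
  set V : ℕ := 1 + ∑ k ∈ range (P + 1), ∑ c ∈ range (P + 1), w k c with hV
  have hV1 : 0 < V := by omega
  have hV' : (1 : ℝ) ≤ V := by exact_mod_cast hV1
  have hwV : ∀ k c : ℕ, k ≤ P → c ≤ P → w k c ≤ V := by
    intro k c hk hc
    have h1 : w k c ≤ ∑ c ∈ range (P + 1), w k c :=
      single_le_sum (f := fun c => w k c) (fun _ _ => Nat.zero_le _)
        (mem_range.2 (Nat.lt_succ_iff.2 hc))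
    have h2 : ∑ c ∈ range (P + 1), w k c ≤ ∑ k ∈ range (P + 1), ∑ c ∈ range (P + 1), w k c :=
      single_le_sum (f := fun k => ∑ c ∈ range (P + 1), w k c) (fun _ _ => Nat.zero_le _)
        (mem_range.2 (Nat.lt_succ_iff.2 hk))
    omega
  set η : ℝ := ε / (3 * V) with hη
  have hη0 : 0 < η := by positivity
  refine ⟨max 1 (max ⌈3 * (V : ℝ) / ε⌉₊ ⌈4 * P / (η * (ε / 3)) / (ε / 3)⌉₊), ?_⟩
  intro W hW α
  have hW1 : 1 ≤ W := (le_max_left _ _).trans hW
  have hW2 : 3 * (V : ℝ) / ε ≤ W :=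
    Nat.ceil_le.1 ((le_max_left _ _).trans ((le_max_right _ _).trans hW))
  have hW3 : 4 * P / (η * (ε / 3)) / (ε / 3) ≤ W :=
    Nat.ceil_le.1 ((le_max_right _ _).trans ((le_max_right _ _).trans hW))
  have hW0 : (0 : ℝ) ≤ W := Nat.cast_nonneg _
  by_cases hmin : ∀ k : ℕ, 1 ≤ k → k ≤ P → η ≤ ‖1 - ee ((k : ℝ) * α)‖
  · have h1 := minor μ hf (by positivity) hP hη0 W hW1 (by
      rw [div_le_iff₀ (by positivity)] at hW3
      linarith) α hmin
    refine h1.trans (le_of_eq ?_)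
    ring
  · push Not at hmin
    obtain ⟨k, hk1, hkP, hk⟩ := hmin
    have h1 := major μ hf α k V W hk1 hV1 hk.le hδ.le (fun c hc =>
      hw k c hk1 hc V (hwV k c hkP (hc.le.trans hkP)))
    refine h1.trans ?_
    have h2 : (k : ℝ) ^ 2 * (ε / (3 * (P : ℝ) ^ 2)) ≤ ε / 3 := by
      have h3 : (k : ℝ) ^ 2 ≤ (P : ℝ) ^ 2 := by
        have : (k : ℝ) ≤ P := by exact_mod_cast hkP
        exact pow_le_pow_left₀ (Nat.cast_nonneg _) this 2
      calc (k : ℝ) ^ 2 * (ε / (3 * (P : ℝ) ^ 2)) ≤ (P : ℝ) ^ 2 * (ε / (3 * (P : ℝ) ^ 2)) :=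
            mul_le_mul_of_nonneg_right h3 hδ.le
        _ = ε / 3 := by field_simp
    have h4 : (V : ℝ) * η = ε / 3 := by
      rw [hη]
      field_simp
    have h5 : (V : ℝ) ≤ ε / 3 * W := by
      rw [div_le_iff₀ hε] at hW2
      linarith
    rw [h4]
    have h6 : (W : ℝ) * ((k : ℝ) ^ 2 * (ε / (3 * (P : ℝ) ^ 2)) + ε / 3) ≤ W * (ε / 3 + ε / 3) :=
      mul_le_mul_of_nonneg_left (by linarith) hW0
    linarith

end Pool.Agent.Y474.LT
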